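import Pool.Agent.R413.SQ.Asy
import Pool.Agent.R413.SQ.BIL
import Pool.Agent.Y356.CQ.EQ
import Pool.Agent.Y839.CQ.SYM
import Pool.Agent.Y948.CQ.C2
import Pool.Agent.Y219.CQ.LA
import Pool.Agent.R413.SQ.BOX
import Pool.Agent.R413.SQ.KEY
import Pool.Agent.R413.SQ.CNT
import Pool.Agent.R413.SQ.HAL
import Pool.Agent.Y405.CQ.MER
import Pool.Agent.Y302.CQ.CHE
import Pool.Agent.R413.SQ.LOW
import Pool.Agent.R413.SQ.FEW
import Pool.Agent.R413.SQ.BAD
import Pool.Agent.R413.SQ.NS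
import Pool.Agent.Y488.CX.Sie

/-!
# The exact proportion of the good `D`, all prime factors `1` modulo `4`

After project CQ, the joint work of helpers 710, 356, 839, 948, 219, 657, 302, 697, 391, 488, 475,
362, 949, 405, 514 and 703 (and the models of project CX).
-/

set_option autoImplicit false

namespace Pool.Agent.R413.SQ

theorem t_DQ_all : S_DQ :=
  t_DQ BIL.t_BIL Pool.Agent.Y356.CQ.t_EQ
    (Pool.Agent.Y219.CQ.t_LA Pool.Agent.Y839.CQ.t_SYM Pool.Agent.Y948.CQ.t_C2)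
    BOX.t_BOX KEY.t_KEY CNT.t_CNT
    Pool.Agent.Y488.CX.t_SIE HAL.t_HAL BAD.t_BAD
    FEW.t_FEW Pool.Agent.Y405.CQ.t_MER Pool.Agent.Y302.CQ.t_CHE
    LOW.t_LOW Pool.Agent.Y948.CQ.t_C2

theorem t_DEN : S_DEN := NS.t_NS t_DQ_all

end Pool.Agent.R413.SQ
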