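import Pool.Agent.R428.Q0.Dens
import Pool.Agent.R413.SQ.Fin

/-!
# The matrix and the good sets
-/

set_option autoImplicit false
set_option linter.unusedSectionVars false

open scoped Classical

namespace Pool.Agent.R413.SQ.Dns

open Finset
open Pool.Agent.Y698 Pool.Agent.Y698.SG
open Pool.Agent.R413.SQ
open Pool.Agent.Y703.CQ (nr c2)
open Pool.Agent.R428.Q0 (nr_nq det_iff)

theorem gd_iff (S : Finset ℕ) : Gd n4 S ↔
    (mat (S.filter fun p => mk p ≠ 1) (S.filter fun p => mk p = 1)).det ≠ 0 := by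
  set Q := S.filter fun p => mk p ≠ 1 with hQ
  set P := S.filter fun p => mk p = 1 with hP
  have hdj : Disjoint Q P := by
    rw [Finset.disjoint_left]
    intro p h1 h2
    exact (Finset.mem_filter.1 h1).2 (Finset.mem_filter.1 h2).2
  rw [det_iff hdj]
  -- the equation
  have heq : ∀ (x : ℕ → ZMod 2) (p : ℕ), p ∈ P →
      (∑ q ∈ S, nr p q * (cu x q + x p) + n4 p * x p =
        (n4 p + ∑ q ∈ Q, nq p q) * x p + ∑ j : P, nq p j * (x p + x j)) := by
    intro x p hp
    rw [Finset.sum_coe_sort P (fun j => nq p j * (x p + x j))]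
    have h1 : ∑ q ∈ S, nr p q * (cu x q + x p) =
        ∑ q ∈ Q, nr p q * (cu x q + x p) + ∑ q ∈ P, nr p q * (cu x q + x p) := by
      rw [hQ, hP, add_comm]
      exact (Finset.sum_filter_add_sum_filter_not S (fun q => mk q = 1) _).symm
    have h2 : ∑ q ∈ Q, nr p q * (cu x q + x p) = (∑ q ∈ Q, nq p q) * x p := by
      rw [Finset.sum_mul]
      refine Finset.sum_congr rfl fun q hq => ?_
      have h3 : cu x q = 0 := if_neg (Finset.mem_filter.1 hq).2
      rw [h3, zero_add, nr_nq]
    have h3 : ∑ q ∈ P, nr p q * (cu x q + x p) = ∑ q ∈ P, nq p q * (x p + x q) := by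
      refine Finset.sum_congr rfl fun q hq => ?_
      have h3 : cu x q = x q := if_pos (Finset.mem_filter.1 hq).2
      rw [h3, nr_nq, add_comm (x q)]
    rw [h1, h2, h3]
    ring
  constructor
  · intro hg x hx
    set y : ℕ → ZMod 2 := fun i => if h : i ∈ P then x ⟨i, h⟩ else 0 with hy
    have hyx : ∀ i : P, y i = x i := fun i => dif_pos i.2
    have hs : Sol n4 S y := by
      intro p hp h8
      have hpP : p ∈ P := Finset.mem_filter.2 ⟨hp, h8⟩
      rw [heq y p hpP]
      have h1 := hx ⟨p, hpP⟩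
      have h2 : y p = x ⟨p, hpP⟩ := hyx ⟨p, hpP⟩
      rw [h2]
      simp only [hyx]
      exact h1
    funext i
    have h1 := hg y hs i (Finset.mem_filter.1 i.2).1 (Finset.mem_filter.1 i.2).2
    rw [hyx] at h1
    exact h1
  · intro h x hs p hp h8
    have h1 := h (fun i : P => x i) (fun i => by
      have h2 := hs i (Finset.mem_filter.1 i.2).1 (Finset.mem_filter.1 i.2).2
      rw [heq x i i.2] at h2
      exact h2)
    exact congrFun h1 ⟨p, Finset.mem_filter.2 ⟨hp, h8⟩⟩

end Pool.Agent.R413.SQ.Dns
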