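import Pool.Agent.Y698.SG.Inp
import Pool.Agent.Y698.SG.Ty
import Pool.Agent.Y698.SG.Uj
import Pool.Agent.Y687.K2.RankForm

/-!
# The L-functions of the twists of `X_0(49)` in the form of the frozen statement
-/

set_option autoImplicit false

namespace Pool.Agent.R413.SQ.L49

open Pool.Agent.Y698 Pool.Agent.Y698.SG

/-- the coefficients of the short model of the twist by `1 + 4 j` -/
def A (j : ℕ) : ℤ := -35 * (1 + 4 * (j : ℤ)) ^ 2

/-- the coefficients of the short model of the twist by `1 + 4 j` -/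
def B (j : ℕ) : ℤ := -98 * (1 + 4 * (j : ℤ)) ^ 3

theorem disc (j : ℕ) : 4 * A j ^ 3 + 27 * B j ^ 2 = 2 ^ 8 * 7 ^ 3 * (1 + 4 * (j : ℤ)) ^ 6 := by
  unfold A B
  ring

/-- the number of points modulo an odd prime -/
theorem count_eq {S : Finset ℕ} (hS : ∀ q ∈ S, Gp q) {j : ℕ} (hj : ∏ q ∈ S, q = 1 + 4 * j)
    {p : ℕ} (hp : p.Prime) (hp2 : p ≠ 2) (hp7 : p ≠ 7) (hpS : p ∉ S) :
    ((((p : ℤ) - (Nat.card {q : ZMod p × ZMod p // q.2 ^ 2 = q.1 ^ 3 + (A j : ZMod p) * q.1 +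
      (B j : ZMod p)} : ℤ)) : ℤ) : ℂ) = (∏ q ∈ S, qch q (p : ℕ)) * bc p := by
  classical
  have : Fact p.Prime := ⟨hp⟩
  have hpD : ¬ (p : ℤ) ∣ (1 + 4 * (j : ℤ)) := by
    intro h
    apply not_dvd_prod hS hp hpS
    rw [hj]
    exact_mod_cast h
  have hF : ringChar (ZMod p) ≠ 2 := by rwa [ZMod.ringChar_zmod_n]
  have hD0 : ((1 + 4 * (j : ℤ) : ℤ) : ZMod p) ≠ 0 := by
    intro h
    exact hpD ((ZMod.intCast_zmod_eq_zero_iff_dvd _ _).1 h)
  have htw := count_tw hF ((-35 : ℤ) : ZMod p) ((-98 : ℤ) : ZMod p) hD0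
  rw [ZMod.card] at htw
  have e1 : ((p : ℤ) - Nat.card {x : ZMod p × ZMod p // x.2 ^ 2 = x.1 ^ 3 +
      (A j : ZMod p) * x.1 + (B j : ZMod p)}) =
      quadraticChar (ZMod p) ((1 + 4 * (j : ℤ) : ℤ) : ZMod p) *
        ((p : ℤ) - Nat.card (Aff (ZMod p))) := by
    unfold Aff A B
    rw [← htw]
    push_cast
    rfl
  have hqc : quadraticChar (ZMod p) ((1 + 4 * (j : ℤ) : ℤ) : ZMod p) =
      jacobiSym (p : ℤ) (1 + 4 * j) := by
    have h3 : quadraticChar (ZMod p) ((1 + 4 * (j : ℤ) : ℤ) : ZMod p) =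
        legendreSym p (1 + 4 * (j : ℤ)) := rfl
    rw [h3, jacobiSym.legendreSym.to_jacobiSym]
    have h4 : Odd p := hp.odd_of_ne_two hp2
    have h5 := jacobiSym.quadratic_reciprocity_one_mod_four (a := 1 + 4 * j) (b := p)
      (by omega) h4
    rw [← h5]
    push_cast
    rfl
  have heps := eps_eq hS p
  have hb := bc_odd hp hp2 hp7
  rw [e1, hqc, heps, hj, hb]
  push_cast
  ring

theorem eps_sq {S : Finset ℕ} (hS : ∀ q ∈ S, Gp q) {p : ℕ} (hp : p.Prime) (hpS : p ∉ S) :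
    (∏ q ∈ S, qch q (p : ℕ)) ^ 2 = 1 := by
  refine qprod_sq (fun q hq => (hS q hq).pr) fun q hq hd => ?_
  have h1 : q ∣ p := by exact_mod_cast hd
  exact hpS (((Nat.prime_dvd_prime_iff_eq (hS q hq).pr hp).1 h1) ▸ hq)

theorem eps_zero {S : Finset ℕ} (hS : ∀ q ∈ S, Gp q) {p : ℕ} (hp : p.Prime) (hpS : p ∈ S) :
    (∏ q ∈ S, qch q (p : ℕ)) = 0 := by
  have heps := eps_eq hS p
  have h1 : jacobiSym (p : ℤ) (∏ q ∈ S, q) = 0 := by
    have hne : NeZero (∏ q ∈ S, q) := ⟨Finset.prod_ne_zero_iff.2 fun q hq => (hS q hq).pr.ne_zero⟩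
    rw [jacobiSym.eq_zero_iff_not_coprime]
    intro h2
    have h3 : p ∣ ∏ q ∈ S, q := Finset.dvd_prod_of_mem (fun q => q) hpS
    have h4 : (p : ℤ) ∣ Int.gcd (p : ℤ) ((∏ q ∈ S, q : ℕ) : ℤ) := by
      apply Int.dvd_coe_gcd
      · exact dvd_refl _
      · exact_mod_cast h3
    rw [h2] at h4
    have h5 : p ∣ 1 := by exact_mod_cast h4
    exact hp.one_lt.ne' (Nat.dvd_one.1 h5)
  push_cast at heps
  rw [heps]
  have h6 : ((∏ q ∈ S, q : ℕ) : ℕ) = ∏ q ∈ S, q := rfl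
  rw [h1, Int.cast_zero]

/-- the Euler factors -/
noncomputable def gg (S : Finset ℕ) (s : ℂ) (p : ℕ) : ℂ :=
  (1 - bc p * ((∏ q ∈ S, qch q (p : ℕ)) * ((p : ℕ) : ℂ) ^ (-s)) +
      ec p * ((∏ q ∈ S, qch q (p : ℕ)) * ((p : ℕ) : ℂ) ^ (-s)) ^ 2)⁻¹

theorem gg_good {S : Finset ℕ} (hS : ∀ q ∈ S, Gp q) {j : ℕ} (hj : ∏ q ∈ S, q = 1 + 4 * j)
    {p : ℕ} (hp : p.Prime) (hp2 : p ≠ 2) (hp7 : p ≠ 7) (hpS : p ∉ S) (s : ℂ) :
    gg S s p = Pool.Agent.Y687.fac (A j) (B j) s p := by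
  unfold gg Pool.Agent.Y687.fac
  rw [count_eq hS hj hp hp2 hp7 hpS]
  have hp0 : (p : ℂ) ≠ 0 := Nat.cast_ne_zero.2 hp.ne_zero
  congr 1
  have e1 : ec p = p := if_neg hp7
  rw [mul_pow, eps_sq hS hp hpS, e1, one_mul]
  have e2 : (p : ℂ) ^ (1 - 2 * s) = p * ((p : ℂ) ^ (-s)) ^ 2 := by
    have e3 : (1 : ℂ) - 2 * s = 1 + (-s + -s) := by ring
    rw [e3, Complex.cpow_add _ _ hp0, Complex.cpow_add _ _ hp0, Complex.cpow_one]
    ring
  rw [e2]
  ring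

theorem gg_seven (S : Finset ℕ) (s : ℂ) : gg S s 7 = 1 := by
  unfold gg
  have h1 := bc_seven 0
  rw [zero_add, pow_one] at h1
  have h2 : ec 7 = 0 := if_pos rfl
  rw [h1, h2, zero_mul, zero_mul, sub_zero, add_zero, inv_one]

theorem gg_bad {S : Finset ℕ} (hS : ∀ q ∈ S, Gp q) {p : ℕ} (hp : p.Prime) (hpS : p ∈ S) (s : ℂ) :
    gg S s p = 1 := by
  unfold gg
  rw [eps_zero hS hp hpS]
  simp

/-- the factor at two -/
noncomputable def a2 (S : Finset ℕ) (s : ℂ) : ℂ :=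
  1 - (∏ q ∈ S, qch q (2 : ℕ)) * (2 : ℂ) ^ (-s) + 2 * ((∏ q ∈ S, qch q (2 : ℕ)) * (2 : ℂ) ^ (-s)) ^ 2

theorem gg_two (S : Finset ℕ) (s : ℂ) : gg S s 2 = (a2 S s)⁻¹ := by
  unfold gg a2
  have h2 : ec 2 = 2 := by
    unfold ec
    rw [if_neg (by norm_num)]
    norm_num
  rw [bc_two, h2, one_mul]
  norm_num

theorem two_notMem {S : Finset ℕ} (hS : ∀ q ∈ S, Gp q) : 2 ∉ S := fun h => by
  have := (hS 2 h).m4
  omega

theorem a2_ne {S : Finset ℕ} (hS : ∀ q ∈ S, Gp q) {s : ℂ} (hs : (3 : ℝ) / 2 < s.re) :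
    a2 S s ≠ 0 := by
  have h1 := eps_sq hS Nat.prime_two (two_notMem hS)
  have h2 : ‖(∏ q ∈ S, qch q ((2 : ℕ) : ℤ))‖ = 1 := by
    have h3 : ‖(∏ q ∈ S, qch q ((2 : ℕ) : ℤ))‖ ^ 2 = 1 := by rw [← norm_pow, h1, norm_one]
    have h4 := norm_nonneg (∏ q ∈ S, qch q ((2 : ℕ) : ℤ))
    nlinarith
  have h3 : ‖(2 : ℂ) ^ (-s)‖ < 1 / 2 := by
    have e : (2 : ℂ) = ((2 : ℝ) : ℂ) := by norm_num
    rw [e, Complex.norm_cpow_eq_rpow_re_of_pos (by norm_num), Complex.neg_re]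
    have h4 : (2 : ℝ) ^ (-s.re) < (2 : ℝ) ^ (-1 : ℝ) :=
      Real.rpow_lt_rpow_of_exponent_lt (by norm_num) (by linarith)
    rw [Real.rpow_neg_one] at h4
    linarith
  intro h0
  unfold a2 at h0
  set x : ℂ := (∏ q ∈ S, qch q ((2 : ℕ) : ℤ)) * (2 : ℂ) ^ (-s) with hx
  have hxn : ‖x‖ < 1 / 2 := by rw [hx, norm_mul, h2, one_mul]; exact h3
  have h5 : (1 : ℂ) = x - 2 * x ^ 2 := by linear_combination h0
  have h6 : (1 : ℝ) ≤ ‖x‖ + 2 * ‖x‖ ^ 2 := by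
    calc (1 : ℝ) = ‖(1 : ℂ)‖ := norm_one.symm
      _ = ‖x - 2 * x ^ 2‖ := by rw [← h5]
      _ ≤ ‖x‖ + ‖2 * x ^ 2‖ := norm_sub_le _ _
      _ = ‖x‖ + 2 * ‖x‖ ^ 2 := by
        rw [norm_mul (2 : ℂ) (x ^ 2), norm_pow x 2, Complex.norm_ofNat]
  have h7 := norm_nonneg x
  nlinarith

theorem a2_one {S : Finset ℕ} (hS : ∀ q ∈ S, Gp q) : a2 S 1 ≠ 0 := by
  have h1 := eps_sq hS Nat.prime_two (two_notMem hS)
  have h2 : (∏ q ∈ S, qch q ((2 : ℕ) : ℤ)) = 1 ∨ (∏ q ∈ S, qch q ((2 : ℕ) : ℤ)) = -1 :=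
    by
      have h4 : ((∏ q ∈ S, qch q ((2 : ℕ) : ℤ)) - 1) * ((∏ q ∈ S, qch q ((2 : ℕ) : ℤ)) + 1) = 0 := by
        linear_combination h1
      rcases mul_eq_zero.1 h4 with h5 | h5
      · exact Or.inl (sub_eq_zero.1 h5)
      · exact Or.inr (eq_neg_of_add_eq_zero_left h5)
  unfold a2
  have h3 : (2 : ℂ) ^ (-1 : ℂ) = 1 / 2 := by
    rw [Complex.cpow_neg_one]
    norm_num
  rw [h3]
  rcases h2 with h | h
  · rw [h]; norm_num
  · rw [h]; norm_num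

theorem a2_diff (S : Finset ℕ) : Differentiable ℂ (a2 S) := by
  have h1 : Differentiable ℂ fun s : ℂ => (2 : ℂ) ^ (-s) :=
    differentiable_id.neg.const_cpow (Or.inl two_ne_zero)
  unfold a2
  exact ((differentiable_const _).sub (h1.const_mul _)).add (((h1.const_mul _).pow 2).const_mul _)

open Classical in
/-- the product over the primes of good reduction -/
theorem hasProd_good {S : Finset ℕ} (hS : ∀ q ∈ S, Gp q) {j : ℕ} (hj : ∏ q ∈ S, q = 1 + 4 * j)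
    {s z : ℂ} (hs : (3 : ℝ) / 2 < s.re) (h : HasProd (fun p : Nat.Primes => gg S s p) z) :
    HasProd (fun l : {l : ℕ // l.Prime ∧ ¬ ((l : ℤ) ∣ 2 * (4 * A j ^ 3 + 27 * B j ^ 2))} =>
      Pool.Agent.Y687.fac (A j) (B j) s l) (z * a2 S s) := by
  set φ : ℕ → ℂ := fun n => if n.Prime ∧ ¬ ((n : ℤ) ∣ 2 * (4 * A j ^ 3 + 27 * B j ^ 2)) then
    Pool.Agent.Y687.fac (A j) (B j) s n else 1 with hφ
  have key : ∀ p : ℕ, p.Prime → gg S s p * (if p = 2 then a2 S s else 1) = φ p := by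
    intro p hp
    have hpZ : Prime (p : ℤ) := Nat.prime_iff_prime_int.1 hp
    by_cases hp2 : p = 2
    · subst hp2
      rw [if_pos rfl, gg_two, inv_mul_cancel₀ (a2_ne hS hs), hφ]
      simp only
      rw [if_neg]
      rintro ⟨-, h2⟩
      exact h2 (by exact_mod_cast dvd_mul_right _ _)
    rw [if_neg hp2, mul_one]
    by_cases hp7 : p = 7
    · subst hp7
      rw [gg_seven, hφ]
      simp only
      rw [if_neg]
      rintro ⟨-, h2⟩
      apply h2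
      rw [disc]
      push_cast
      exact ⟨2 * (2 ^ 8 * 7 ^ 2) * (1 + 4 * (j : ℤ)) ^ 6, by ring⟩
    by_cases hpS : p ∈ S
    · rw [gg_bad hS hp hpS, hφ]
      simp only
      rw [if_neg]
      rintro ⟨-, h2⟩
      apply h2
      rw [disc]
      have h3 : p ∣ 1 + 4 * j := hj ▸ Finset.dvd_prod_of_mem (fun q => q) hpS
      have h4 : (p : ℤ) ∣ 1 + 4 * (j : ℤ) := by exact_mod_cast h3
      exact ((dvd_pow h4 (by norm_num)).mul_left _).mul_left _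
    · rw [gg_good hS hj hp hp2 hp7 hpS, hφ]
      simp only
      rw [if_pos]
      refine ⟨hp, fun h2 => ?_⟩
      rw [disc] at h2
      have h2' : p ≠ 2 := hp2
      rcases hpZ.dvd_or_dvd h2 with h3 | h3
      · have h4 : p ∣ 2 := by exact_mod_cast h3
        exact hp2 ((Nat.prime_dvd_prime_iff_eq hp Nat.prime_two).1 h4)
      rcases hpZ.dvd_or_dvd h3 with h4 | h4
      · have h5 : p ∣ 2 ^ 8 * 7 ^ 3 := by exact_mod_cast h4
        rcases (Nat.Prime.dvd_mul hp).1 h5 with h6 | h6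
        · exact hp2 ((Nat.prime_dvd_prime_iff_eq hp Nat.prime_two).1 (hp.dvd_of_dvd_pow h6))
        · exact hp7 ((Nat.prime_dvd_prime_iff_eq hp (by norm_num)).1 (hp.dvd_of_dvd_pow h6))
      · have h5 := hpZ.dvd_of_dvd_pow h4
        apply not_dvd_prod hS hp hpS
        rw [hj]
        exact_mod_cast h5
  have h1 : HasProd (fun p : Nat.Primes => if p = (⟨2, Nat.prime_two⟩ : Nat.Primes) then a2 S s
      else 1) (a2 S s) := hasProd_ite_eq _ _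
  have h2 := h.mul h1
  have h3 : (fun p : Nat.Primes => gg S s p * (if p = (⟨2, Nat.prime_two⟩ : Nat.Primes) then
      a2 S s else 1)) = φ ∘ ((↑) : {p : ℕ | p.Prime} → ℕ) := by
    funext p
    have h4 := key p p.2
    rw [Function.comp_apply]
    refine Eq.trans ?_ h4
    congr 1
    have h5 : (p = (⟨2, Nat.prime_two⟩ : Nat.Primes)) ↔ (p : ℕ) = 2 := Subtype.ext_iff
    by_cases h6 : (p : ℕ) = 2
    · rw [if_pos h6, if_pos (h5.2 h6)]
    · rw [if_neg h6, if_neg (fun h => h6 (h5.1 h))]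
  rw [h3] at h2
  have h4 : HasProd φ (z * a2 S s) := (hasProd_subtype_iff_of_mulSupport_subset (by
    intro n hn
    rw [Function.mem_mulSupport] at hn
    by_contra h5
    exact hn (if_neg fun h6 => h5 h6.1))).1 h2
  have h5 := (hasProd_subtype_iff_of_mulSupport_subset
    (s := {l : ℕ | l.Prime ∧ ¬ ((l : ℤ) ∣ 2 * (4 * A j ^ 3 + 27 * B j ^ 2))}) (by
    intro n hn
    rw [Function.mem_mulSupport] at hn
    by_contra h6
    exact hn (if_neg h6))).2 h4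
  refine (congrArg (fun g => HasProd g (z * a2 S s)) (funext fun p => ?_)).mp h5
  simp only [Function.comp_apply]
  exact if_pos p.2

theorem ne_zero_of {z Ω : ℂ} {e : ℕ}
    (key : ∀ (Γ : Type) [LinearOrderedCommGroupWithZero Γ] (v : Valuation ℂ Γ), v al < 1 →
      v 2 * v ((starRingEnd ℂ) z / Ω) = v 2 ^ e) : z ≠ 0 := by
  rintro rfl
  have key' : ∀ (Γ : Type) [LinearOrderedCommGroupWithZero Γ] (v : Valuation ℂ Γ), ¬ v al < 1 := by
    intro Γ _ v hv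
    have h1 := key Γ v hv
    rw [map_zero, zero_div, map_zero, mul_zero] at h1
    exact pow_ne_zero _ ((v.ne_zero_iff).2 two_ne_zero) h1.symm
  refine exists_val2 fun Γ _ v h2 => ?_
  have hcases : v al < 1 ∨ v bl < 1 := by
    by_contra hcon
    push Not at hcon
    have h3 : v 2 = v al * v bl := by rw [← al_mul_bl, map_mul]
    rw [h3] at h2
    have : (1 : Γ) * 1 ≤ v al * v bl := mul_le_mul' hcon.1 hcon.2
    rw [one_mul] at this
    exact absurd h2 (not_lt.2 this)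
  rcases hcases with h3 | h3
  · exact key' Γ v h3
  · exact key' Γ (v.comap (starRingEnd ℂ)) (by
      rw [Valuation.comap_apply, conj_al]; exact h3)

/-- **the L-function of the twist, the matrix not singular** -/
theorem main {Q P : Finset ℕ} (hQ : ∀ q ∈ Q, Inq q) (hP : ∀ p ∈ P, Spl p)
    (hdet : (mat Q P).det ≠ 0) {j : ℕ} (hj : ∏ q ∈ Q ∪ P, q = 1 + 4 * j) :
    ∃ f : ℂ → ℂ, Differentiable ℂ f ∧ (∀ s : ℂ, (3 : ℝ) / 2 < s.re →
      HasProd (fun l : {l : ℕ // l.Prime ∧ ¬ ((l : ℤ) ∣ 2 * (4 * A j ^ 3 + 27 * B j ^ 2))} =>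
        Pool.Agent.Y687.fac (A j) (B j) s l) (f s)) ∧ f 1 ≠ 0 := by
  classical
  obtain ⟨F, g1, g2, g4⟩ := val_quad' inp hQ hP hdet
  obtain ⟨L, Ω, hL⟩ := exists_LD
  have hS : ∀ q ∈ Q ∪ P, Gp q := by
    intro q hq
    rcases Finset.mem_union.1 hq with h | h
    · exact Gp.of_inq (hQ q h)
    · exact Gp.of_spl (hP q h)
  refine ⟨fun s => F s * a2 (Q ∪ P) s, g1.mul (a2_diff _),
    fun s hs => hasProd_good hS hj hs (g2 s hs), mul_ne_zero ?_ (a2_one hS)⟩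
  exact ne_zero_of (Ω := Ω) fun Γ _ v hv => g4 Γ v L Ω hL hv

end Pool.Agent.R413.SQ.L49
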