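import Pool.Agent.Y655.XT.Shavc
import Pool.Agent.R413.SQ.Dns
import Pool.Agent.R413.SQ.L49
import Pool.Agent.Results.MP_4a9ea6_nt.TwoPartTwistsX49

/-!
# The rank form of the conjecture for the twists of `X_0(49)`
-/

set_option autoImplicit false
set_option linter.unusedSectionVars false

open WeierstrassCurve

namespace Pool.Agent.R413.SQ.Cor

open Pool.Agent.Y698 Pool.Agent.R413.SQ
open Pool.Agent.TH841.NF.D (Sha)
open Pool.Agent.Results.MP_4a9ea6_nt.TwoPartTwistsX49 (Adm mat core inq spl mat_eq union_eq adm_mod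
  split inert twist)
open Pool.Agent.Y700 (VR)

/-- the minimal model -/
abbrev EM (D : ℕ) : WeierstrassCurve ℚ := Pool.Agent.Results.MP_4a9ea6_nt.TwoPartTwistsX49.E D

/-- the coefficients of the short model -/
def a (D : ℕ) : ℤ := -35 * (D : ℤ) ^ 2

/-- the coefficients of the short model -/
def b (D : ℕ) : ℤ := -98 * (D : ℤ) ^ 3

/-- the short model -/
def ES (D : ℕ) : WeierstrassCurve ℚ :=
  { a₁ := 0, a₂ := 0, a₃ := 0, a₄ := (a D : ℚ), a₆ := (b D : ℚ) }

theorem vr {D : ℕ} (h : D % 4 = 1) : VR (ES D) (EM D) 2 (-(D : ℚ)) 1 0 := by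
  obtain ⟨j, hj⟩ : ∃ j : ℕ, D = 1 + 4 * j := ⟨D / 4, by omega⟩
  have h1 : (3 * (D : ℤ) + 1) / 4 = 1 + 3 * j := by
    rw [hj]
    push_cast
    omega
  have h2 : (D : ℚ) = 1 + 4 * j := by rw [hj]; push_cast; ring
  refine ⟨by norm_num, ?_, ?_, ?_, ?_, ?_⟩
  · simp [ES, twist, WeierstrassCurve.map]
  · simp only [ES, twist, WeierstrassCurve.map, h1, eq_intCast]
    push_cast
    rw [h2]
    ring
  · simp [ES, twist, WeierstrassCurve.map]
  · simp only [ES, twist, WeierstrassCurve.map, a, eq_intCast]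
    push_cast
    ring
  · simp only [ES, twist, WeierstrassCurve.map, a, b, eq_intCast]
    push_cast
    ring

theorem disc (D : ℕ) : (ES D).Δ = -2 ^ 12 * 7 ^ 3 * (D : ℚ) ^ 6 := by
  simp only [ES, WeierstrassCurve.Δ, WeierstrassCurve.b₂, WeierstrassCurve.b₄, WeierstrassCurve.b₆,
    WeierstrassCurve.b₈, a, b]
  push_cast
  ring

theorem disc_ne {D : ℕ} (h : D ≠ 0) : (ES D).Δ ≠ 0 := by
  rw [disc]
  have : (D : ℚ) ≠ 0 := Nat.cast_ne_zero.2 h
  exact mul_ne_zero (by norm_num) (pow_ne_zero 6 this)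

theorem discM {D : ℕ} (h : D % 4 = 1) : (EM D).Δ ≠ 0 := by
  intro h0
  have h1 := (vr h).delta
  rw [h0, mul_zero] at h1
  exact disc_ne (by omega) h1

/-- the two models have the same points and the same `Ш` -/
theorem same {D : ℕ} (h : D % 4 = 1) :
    (Finite (ES D).toAffine.Point ∧ ∀ x : Sha (ES D), 2 • x = 0 → x = 0) ↔
      (Finite (EM D).toAffine.Point ∧ ∀ x : Sha (EM D), x + x = 0 → x = 0) := by
  classical
  have e1 := (vr h).equiv (discM h)
  have e2 := (Pool.Agent.Y655.XT.isoVR (vr h) (discM h)).sha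
  refine and_congr ⟨fun h1 => Finite.of_equiv _ e1.symm.toEquiv,
    fun h1 => Finite.of_equiv _ e1.toEquiv⟩ ⟨fun h1 x hx => ?_, fun h1 x hx => ?_⟩
  · have h2 := h1 (e2 x) (by rw [two_nsmul, ← map_add, hx, map_zero])
    exact (map_eq_zero_iff e2 e2.injective).1 h2
  · have h2 := h1 (e2.symm x) (by rw [← map_add, ← two_nsmul, hx, map_zero])
    exact (map_eq_zero_iff e2.symm e2.symm.injective).1 h2

theorem mk_iff {p : ℕ} (hp : p.Prime) (h4 : p % 4 = 1) : IsSquare (-7 : ZMod p) ↔ mk p = 1 := by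
  rw [Pool.Agent.R428.Q0.sq7_iff hp h4]
  unfold mk
  constructor
  · intro h
    rw [if_pos h]
  · intro h
    by_contra hc
    rw [if_neg hc] at h
    exact absurd h (by norm_num)

/-- the matrix and the good sets -/
theorem det_iff {D : ℕ} (h : Adm D) : (mat D).det ≠ 0 ↔ Gd Pool.Agent.Y698.SG.n4 D.primeFactors := by
  classical
  rw [Dns.gd_iff, ← mat_eq]
  have key : ∀ p ∈ D.primeFactors, (IsSquare (-7 : ZMod p) ↔ mk p = 1) := fun p hp =>
    mk_iff (Nat.prime_of_mem_primeFactors hp) (h.2 p hp)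
  have e1 : inert D = D.primeFactors.filter fun p => mk p ≠ 1 := by
    unfold inert
    refine Finset.filter_congr fun p hp => ?_
    rw [key p hp]
  have e2 : split D = D.primeFactors.filter fun p => mk p = 1 := by
    unfold split
    refine Finset.filter_congr fun p hp => ?_
    rw [key p hp]
  rw [e1, e2]

/-- the class -/
theorem cl_iff (D : ℕ) : Adm D ↔ Squarefree D ∧ Cl ∅ ∅ D.primeFactors := by
  constructor
  · rintro ⟨h1, h2⟩
    exact ⟨h1, fun p hp => of_pr1 _ (Nat.prime_of_mem_primeFactors hp) (h2 p hp)⟩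
  · rintro ⟨h1, h2⟩
    exact ⟨h1, fun p hp => (pr1 (h2 p hp)).2⟩

/-- finitely many solutions -/
theorem fin_set {D : ℕ} (h : D ≠ 0) (hf : Finite (ES D).toAffine.Point) :
    {q : ℚ × ℚ | q.2 ^ 2 = q.1 ^ 3 + (a D : ℚ) * q.1 + (b D : ℚ)}.Finite := by
  have key : ∀ q ∈ {q : ℚ × ℚ | q.2 ^ 2 = q.1 ^ 3 + (a D : ℚ) * q.1 + (b D : ℚ)},
      (ES D).toAffine.Nonsingular q.1 q.2 := by
    intro q hq
    refine Pool.Agent.Y700.nonsing (disc_ne h) ?_
    rw [Affine.equation_iff]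
    have hq' : q.2 ^ 2 = q.1 ^ 3 + (a D : ℚ) * q.1 + (b D : ℚ) := hq
    simp only [ES]
    linear_combination hq'
  rw [← Set.finite_coe_iff]
  refine Finite.of_injective (fun q : {q : ℚ × ℚ | q.2 ^ 2 = q.1 ^ 3 + (a D : ℚ) * q.1 + (b D : ℚ)}
    => (Affine.Point.some q.1.1 q.1.2 (key q.1 q.2) : (ES D).toAffine.Point)) ?_
  intro q q' hqq
  simp only [Affine.Point.some.injEq] at hqq
  exact Subtype.ext (Prod.ext hqq.1 hqq.2)

/-- **the criterion** -/
theorem crit {D : ℕ} (h : Adm D) : (Finite (ES D).toAffine.Point ∧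
    ∀ x : Sha (ES D), 2 • x = 0 → x = 0) ↔ (mat D).det ≠ 0 := by
  rw [same (adm_mod h)]
  exact (core h).2.2.2.1

/-- **the rank form** -/
theorem rank_bsd {D : ℕ} (h : Adm D) (hd : (mat D).det ≠ 0) :
    Pool.Agent.Y687.RankBSD (a D) (b D) := by
  classical
  obtain ⟨j, hj⟩ : ∃ j : ℕ, D = 1 + 4 * j := ⟨D / 4, by have := adm_mod h; omega⟩
  have hprod : ∏ q ∈ inert D ∪ split D, q = 1 + 4 * j := by
    rw [union_eq, Nat.prod_primeFactors_of_squarefree h.1, hj]
  obtain ⟨f, h1, h2, h3⟩ := L49.main (inq h) (spl h) (by rw [mat_eq]; exact hd) hprod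
  have ea : a D = L49.A j := by
    unfold a L49.A
    rw [hj]
    push_cast
    rfl
  have eb : b D = L49.B j := by
    unfold b L49.B
    rw [hj]
    push_cast
    rfl
  rw [← ea, ← eb] at h2
  exact Pool.Agent.Y687.rankBSD h1 h2 h3 (fin_set h.1.ne_zero ((crit h).2 hd).1)

end Pool.Agent.R413.SQ.Cor
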