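import Pool.Agent.R413.SQ.Fin

/-!
# The number of the good `D`
-/

set_option autoImplicit false

open scoped Classical

namespace Pool.Agent.R413.SQ

open Finset
open Pool.Agent.Y703.CQ (c2)

/-- the number of the good `D` is at least `c X / √log X` -/
theorem good_ge (f : ℕ → ZMod 2) : ∃ (c : ℝ) (X₀ : ℕ), 0 < c ∧ ∀ X : ℕ, X₀ ≤ X →
    c * X / Real.sqrt (Real.log X) ≤ (((Icc 1 X).filter fun D => Squarefree D ∧
      Cl ∅ ∅ D.primeFactors ∧ Gd f D.primeFactors).card : ℝ) := by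
  obtain ⟨c, X₀, hc, h⟩ := LOW.t_LOW Pool.Agent.Y405.CQ.t_MER Pool.Agent.Y302.CQ.t_CHE ∅ ∅ trivial
  have h1 := t_DEN ∅ ∅ f trivial
  have hc2 : 0 < c2 := Pool.Agent.Y948.CQ.t_C2.2.1
  have h2 := (h1.eventually (lt_mem_nhds (show c2 / 2 < c2 by linarith)))
  obtain ⟨X₁, hX₁⟩ := Filter.eventually_atTop.1 h2
  refine ⟨c * (c2 / 2), max (max X₀ X₁) 3, by positivity, fun X hX => ?_⟩
  have k1 : X₀ ≤ X := le_trans (le_trans (le_max_left _ _) (le_max_left _ _)) hX
  have k2 : X₁ ≤ X := le_trans (le_trans (le_max_right _ _) (le_max_left _ _)) hX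
  have k3 : 3 ≤ X := le_trans (le_max_right _ _) hX
  have a1 := h X k1
  have a2 := hX₁ X k2
  have e2 := NS.card_eq ∅ ∅ X (fun _ => True)
  rw [Finset.filter_true] at e2
  simp only [and_true] at e2
  rw [← e2] at a1
  have hL : 0 < Real.log X := Real.log_pos (by exact_mod_cast (by omega : 1 < X))
  have e3 : (Real.log X) ^ (-1 + dl ∅ : ℝ) = (Real.sqrt (Real.log X))⁻¹ := by
    unfold dl
    rw [Real.sqrt_eq_rpow, ← Real.rpow_neg hL.le]
    norm_num
  rw [e3] at a1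
  have hX0 : (0 : ℝ) < X := by exact_mod_cast (by omega : 0 < X)
  have hpos : 0 < c * X * (Real.sqrt (Real.log X))⁻¹ := by positivity
  have hden : 0 < (((Icc 1 X).filter fun D => Squarefree D ∧ Cl ∅ ∅ D.primeFactors).card : ℝ) :=
    lt_of_lt_of_le hpos a1
  have a3 := (lt_div_iff₀ hden).1 a2
  refine le_trans ?_ a3.le
  have e4 : c * (c2 / 2) * X / Real.sqrt (Real.log X) =
      c2 / 2 * (c * X * (Real.sqrt (Real.log X))⁻¹) := by
    rw [div_eq_mul_inv]
    ring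
  rw [e4]
  exact mul_le_mul_of_nonneg_left a1 (by positivity)

end Pool.Agent.R413.SQ
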